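import Pool.Agent.Y825.KL.Ext

/-!
# Defining minors of Kazhdan-Lusztig ideals fail to be Groebner bases for every `n ≥ 6`

The problem's indices `1, …, n` are `0, …, n - 1` here (`Fin n`). Definitions (`Graded`,
`Diagonal`, `IsGroebnerBasis`, `restrictOrder`, `incl`, `Z`, `swRank`, `definingDets`, `KLIdeal`,
`BruhatLE`) are those of `Pool.Agent.Results.MP_fe322e_ag.NotGroebner`.
-/

open MvPolynomial
open Pool.Agent.Results.MP_fe322e_ag.NotGroebner

namespace Pool.Agent.Results.MP_fe322e_ag.EverySix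

/-- Graded diagonal term orders exist for every `n`, and for every `n ≥ 6` and every field there
are `u ≤ v` in `S_n` such that for no graded term order the defining determinants of `I_{u,v}` are
a Groebner basis of `I_{u,v}`. -/
theorem result (k : Type*) [Field k] :
    (∀ n : ℕ, ∃ m : MonomialOrder.{0, 0} (Fin n × Fin n), Graded m ∧ Diagonal k m) ∧
    ∀ n : ℕ, 6 ≤ n → ∃ u v : Equiv.Perm (Fin n), BruhatLE u v ∧
      ∀ m : MonomialOrder (Fin n × Fin n), Graded m →
        ¬ IsGroebnerBasis (restrictOrder m (incl u)) (definingDets k u v) (KLIdeal k u v) :=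
  ⟨fun n => ⟨rowOrder n, rowOrder_graded n, rowOrder_diagonal k n⟩,
    fun _ h => ⟨Pool.Agent.Y825.KL.ext6 h u₀, Pool.Agent.Y825.KL.ext6 h v₀,
      Pool.Agent.Y825.KL.bruhat_ext h _ _ bruhat₀,
      fun m hm => Pool.Agent.Y825.KL.not_groebner h k _ (graded_restrict m hm _)⟩⟩

end Pool.Agent.Results.MP_fe322e_ag.EverySix
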